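import Mathlib

set_option autoImplicit false

open Filter Topology Set

namespace Pool.Agent.Results.MP_047b76_an.NowhereDiff

/-- Euclidean space `ℝ^d`. -/
abbrev E (d : ℕ) := EuclideanSpace ℝ (Fin d)

section construction

variable {d : ℕ} [NeZero d]

/-- the frequency ratio -/
noncomputable def B (d : ℕ) : ℝ := 4096 * d

/-- the `k`-th summand -/
noncomputable def term (k : ℕ) (x : E d) : ℝ :=
  (1 / 16 : ℝ) ^ k * Real.cos (B d ^ k * x (Fin.ofNat d k))

/-- the function -/
noncomputable def F (x : E d) : ℝ := ∑' k : ℕ, term k x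

lemma abs_term_le (k : ℕ) (x : E d) : |term k x| ≤ (1 / 16 : ℝ) ^ k := by
  unfold term
  rw [abs_mul, abs_of_nonneg (by positivity : (0:ℝ) ≤ (1 / 16) ^ k)]
  exact mul_le_of_le_one_right (by positivity) (Real.abs_cos_le_one _)

lemma summable_term (x : E d) : Summable fun k => term k x := by
  refine Summable.of_norm_bounded (summable_geometric_of_lt_one (by norm_num) (by norm_num : (1 / 16 : ℝ) < 1))
    fun k => ?_
  rw [Real.norm_eq_abs]
  exact abs_term_le k x

lemma continuous_term (k : ℕ) : Continuous (term k : E d → ℝ) := by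
  unfold term
  fun_prop

lemma continuous_F : Continuous (F : E d → ℝ) := by
  unfold F
  refine continuous_tsum (fun k => continuous_term k)
    (summable_geometric_of_lt_one (by norm_num) (by norm_num : (1 / 16 : ℝ) < 1)) fun k x => ?_
  rw [Real.norm_eq_abs]
  exact abs_term_le k x

lemma one_le_d : (1 : ℝ) ≤ d := by
  have : 1 ≤ d := Nat.one_le_iff_ne_zero.2 (NeZero.ne d)
  exact_mod_cast this

lemma B_pos : 0 < B d := by
  unfold B
  have := one_le_d (d := d)
  positivity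

lemma abs_cos_sub_le (x y : ℝ) : |Real.cos y - Real.cos x| ≤ |y - x| := by
  have h := Real.cos_sub_cos y x
  rw [h, abs_mul, abs_mul]
  have h1 : |Real.sin ((y + x) / 2)| ≤ 1 := Real.abs_sin_le_one _
  have h2 : |Real.sin ((y - x) / 2)| ≤ |(y - x) / 2| := Real.abs_sin_le_abs
  have h3 : |(-2 : ℝ)| = 2 := by norm_num
  rw [h3]
  have h4 : |(y - x) / 2| = |y - x| / 2 := by rw [abs_div]; norm_num
  rw [h4] at h2
  nlinarith [abs_nonneg (Real.sin ((y + x) / 2)), abs_nonneg (Real.sin ((y - x) / 2)),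
    abs_nonneg (y - x)]

lemma abs_term_sub_le (k : ℕ) (x y : E d) :
    |term k y - term k x| ≤ (256 * (d : ℝ)) ^ k * ‖y - x‖ := by
  unfold term
  rw [← mul_sub, abs_mul, abs_of_nonneg (by positivity : (0:ℝ) ≤ (1 / 16) ^ k)]
  have h1 := abs_cos_sub_le (B d ^ k * x (Fin.ofNat d k)) (B d ^ k * y (Fin.ofNat d k))
  have hB := pow_pos (B_pos (d := d)) k
  have h2 : |B d ^ k * y (Fin.ofNat d k) - B d ^ k * x (Fin.ofNat d k)| ≤ B d ^ k * ‖y - x‖ := by
    rw [← mul_sub, abs_mul, abs_of_pos hB]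
    refine mul_le_mul_of_nonneg_left ?_ hB.le
    have := PiLp.norm_apply_le (y - x) (Fin.ofNat d k)
    simpa using this
  calc (1 / 16 : ℝ) ^ k * |Real.cos (B d ^ k * y (Fin.ofNat d k)) - Real.cos (B d ^ k * x (Fin.ofNat d k))|
      ≤ (1 / 16 : ℝ) ^ k * (B d ^ k * ‖y - x‖) :=
        mul_le_mul_of_nonneg_left (h1.trans h2) (by positivity)
    _ = (256 * (d : ℝ)) ^ k * ‖y - x‖ := by
        rw [← mul_assoc, ← mul_pow]
        congr 2
        unfold B
        ring

lemma key_lower (k : ℕ) (x y : E d) :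
    |term k y - term k x| - (256 * (d : ℝ)) ^ k / 255 / d * ‖y - x‖ - 2 / 15 * (1 / 16 : ℝ) ^ k
      ≤ |F y - F x| := by
  have hs : Summable fun k => (term k y - term k x) := (summable_term y).sub (summable_term x)
  have h0 : F y - F x = ∑' k, (term k y - term k x) := by
    unfold F
    rw [(summable_term y).tsum_sub (summable_term x)]
  have h1 : ∑' j, (term j y - term j x) = ∑ j ∈ Finset.range (k + 1), (term j y - term j x) +
      ∑' j, (term (j + (k + 1)) y - term (j + (k + 1)) x) :=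
    (hs.sum_add_tsum_nat_add (k + 1)).symm
  have h2 : |∑ j ∈ Finset.range k, (term j y - term j x)| ≤
      (256 * (d : ℝ)) ^ k / 255 / d * ‖y - x‖ := by
    have hd := one_le_d (d := d)
    calc |∑ j ∈ Finset.range k, (term j y - term j x)|
        ≤ ∑ j ∈ Finset.range k, |term j y - term j x| := Finset.abs_sum_le_sum_abs _ _
      _ ≤ ∑ j ∈ Finset.range k, (256 * (d : ℝ)) ^ j * ‖y - x‖ :=
          Finset.sum_le_sum fun j _ => abs_term_sub_le j x y
      _ = (∑ j ∈ Finset.range k, (256 * (d : ℝ)) ^ j) * ‖y - x‖ := by rw [Finset.sum_mul]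
      _ ≤ (256 * (d : ℝ)) ^ k / 255 / d * ‖y - x‖ := by
          refine mul_le_mul_of_nonneg_right ?_ (norm_nonneg _)
          rw [geom_sum_eq (by nlinarith), div_div]
          have hp : (0 : ℝ) ≤ (256 * (d : ℝ)) ^ k := by positivity
          rw [div_le_div_iff₀ (by nlinarith) (by positivity)]
          nlinarith [mul_nonneg hp (by linarith : (0 : ℝ) ≤ d - 1)]
  have h3 : |∑' j, (term (j + (k + 1)) y - term (j + (k + 1)) x)| ≤ 2 / 15 * (1 / 16 : ℝ) ^ k := by
    have hg : HasSum (fun j : ℕ => 2 / 16 * (1 / 16 : ℝ) ^ k * (1 / 16 : ℝ) ^ j)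
        (2 / 16 * (1 / 16 : ℝ) ^ k * (1 - 1 / 16)⁻¹) :=
      (hasSum_geometric_of_lt_one (by norm_num) (by norm_num)).mul_left _
    have hb : ∀ j : ℕ, ‖term (j + (k + 1)) y - term (j + (k + 1)) x‖ ≤
        2 / 16 * (1 / 16 : ℝ) ^ k * (1 / 16 : ℝ) ^ j := by
      intro j
      rw [Real.norm_eq_abs]
      refine (abs_sub _ _).trans ?_
      have e1 := abs_term_le (j + (k + 1)) y
      have e2 := abs_term_le (j + (k + 1)) x
      have e3 : (1 / 16 : ℝ) ^ (j + (k + 1)) = 1 / 16 * (1 / 16 : ℝ) ^ k * (1 / 16 : ℝ) ^ j := by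
        rw [pow_add, pow_succ]; ring
      rw [e3] at e1 e2
      linarith
    have := tsum_of_norm_bounded hg hb
    rw [Real.norm_eq_abs] at this
    refine this.trans (le_of_eq ?_)
    ring
  rw [h0, h1, Finset.sum_range_succ]
  set S := ∑ j ∈ Finset.range k, (term j y - term j x)
  set T := ∑' j, (term (j + (k + 1)) y - term (j + (k + 1)) x)
  have h4 : |term k y - term k x| ≤ |S + (term k y - term k x) + T| + |S| + |T| := by
    have e : term k y - term k x = (S + (term k y - term k x) + T) - S - T := by ring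
    calc |term k y - term k x| = |(S + (term k y - term k x) + T) - S - T| := by rw [← e]
      _ ≤ |(S + (term k y - term k x) + T) - S| + |T| := abs_sub _ _
      _ ≤ |S + (term k y - term k x) + T| + |S| + |T| := by
          linarith [abs_sub (S + (term k y - term k x) + T) S]
  linarith

/-- a point at which the cosine has moved by at least `1/2` -/
lemma exists_move {g : ℝ → ℝ} {h θ : ℝ} (hh : 0 < h) (hg : ContinuousOn g (Icc 0 h)) (h0 : g 0 = 0)
    (h1 : 7 / 2 ≤ |g h|) : ∃ r, 0 < r ∧ r ≤ h ∧ 1 / 2 ≤ |Real.cos (θ + g r) - Real.cos θ| := by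
  have hpi := Real.pi_lt_d2
  have hpi0 := Real.pi_pos
  -- values `± π` and `± π / 2` are attained
  obtain ⟨σ, hσ, r1, hr1, hv1, r2, hr2, hv2⟩ : ∃ σ : ℝ, (σ = 1 ∨ σ = -1) ∧
      ∃ r1 ∈ Icc 0 h, g r1 = σ * Real.pi ∧ ∃ r2 ∈ Icc 0 h, g r2 = σ * (Real.pi / 2) := by
    rcases le_total 0 (g h) with hp | hn
    · rw [abs_of_nonneg hp] at h1
      have hI := intermediate_value_Icc hh.le hg
      rw [h0] at hI
      obtain ⟨r1, hr1, hv1⟩ := hI (show Real.pi ∈ Icc 0 (g h) from ⟨hpi0.le, by linarith⟩)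
      obtain ⟨r2, hr2, hv2⟩ := hI (show Real.pi / 2 ∈ Icc 0 (g h) from ⟨by linarith, by linarith⟩)
      exact ⟨1, Or.inl rfl, r1, hr1, by linarith, r2, hr2, by linarith⟩
    · rw [abs_of_nonpos hn] at h1
      have hI := intermediate_value_Icc' hh.le hg
      rw [h0] at hI
      obtain ⟨r1, hr1, hv1⟩ := hI (show -Real.pi ∈ Icc (g h) 0 from ⟨by linarith, by linarith⟩)
      obtain ⟨r2, hr2, hv2⟩ := hI (show -(Real.pi / 2) ∈ Icc (g h) 0 from ⟨by linarith, by linarith⟩)
      exact ⟨-1, Or.inr rfl, r1, hr1, by linarith, r2, hr2, by linarith⟩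
  have hpos : ∀ r ∈ Icc 0 h, g r ≠ 0 → 0 < r := by
    intro r hr hne
    rcases hr.1.lt_or_eq with h2 | h2
    · exact h2
    · exact absurd (h2 ▸ h0) hne
  have hne1 : g r1 ≠ 0 := by
    rw [hv1]; rcases hσ with rfl | rfl <;> simp [Real.pi_ne_zero]
  have hne2 : g r2 ≠ 0 := by
    rw [hv2]; rcases hσ with rfl | rfl <;> simp [Real.pi_ne_zero]
  by_cases hc : 1 / 4 ≤ |Real.cos θ|
  · refine ⟨r1, hpos r1 hr1 hne1, hr1.2, ?_⟩
    have e : Real.cos (θ + g r1) = -Real.cos θ := by
      rw [hv1]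
      rcases hσ with rfl | rfl
      · rw [one_mul, Real.cos_add_pi]
      · rw [neg_one_mul, ← sub_eq_add_neg, Real.cos_sub_pi]
    rw [e]
    have : |-Real.cos θ - Real.cos θ| = 2 * |Real.cos θ| := by
      rw [show -Real.cos θ - Real.cos θ = -(2 * Real.cos θ) by ring, abs_neg, abs_mul]
      norm_num
    rw [this]; linarith
  · push Not at hc
    refine ⟨r2, hpos r2 hr2 hne2, hr2.2, ?_⟩
    have hs : 15 / 16 < Real.sin θ ^ 2 := by
      have := Real.sin_sq_add_cos_sq θ
      have h3 : Real.cos θ ^ 2 < 1 / 16 := by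
        rw [← sq_abs]; nlinarith [abs_nonneg (Real.cos θ)]
      linarith
    have hs2 : 3 / 4 < |Real.sin θ| := by
      by_contra hcon
      push Not at hcon
      have : Real.sin θ ^ 2 ≤ (3 / 4) ^ 2 := by
        rw [← sq_abs]; exact pow_le_pow_left₀ (abs_nonneg _) hcon 2
      norm_num at this
      linarith
    have e : |Real.cos (θ + g r2)| = |Real.sin θ| := by
      rw [hv2]
      rcases hσ with rfl | rfl
      · rw [one_mul, Real.cos_add_pi_div_two, abs_neg]
      · rw [neg_one_mul, ← sub_eq_add_neg, Real.cos_sub_pi_div_two]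
    have := abs_sub_abs_le_abs_sub (Real.cos (θ + g r2)) (Real.cos θ)
    rw [e] at this
    linarith

/-- some coordinate carries a definite part of the norm -/
lemma exists_coord (v : E d) : ∃ i : Fin d, ‖v‖ ≤ d * |v i| := by
  by_contra hcon
  push Not at hcon
  have hd := one_le_d (d := d)
  have h1 : ‖v‖ ^ 2 = ∑ i, |v i| ^ 2 := by
    rw [EuclideanSpace.norm_sq_eq]; simp
  have hv : 0 < ‖v‖ := by
    have := hcon 0
    have h2 : 0 ≤ (d : ℝ) * |v 0| := by positivity
    linarith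
  have h3 : ∀ i, |v i| ^ 2 * (d : ℝ) ^ 2 < ‖v‖ ^ 2 := by
    intro i
    rw [← mul_pow]
    have := hcon i
    have h0 : 0 ≤ |v i| * d := by positivity
    nlinarith
  have h4 : ∑ i, |v i| ^ 2 * (d : ℝ) ^ 2 < ∑ _i : Fin d, ‖v‖ ^ 2 :=
    Finset.sum_lt_sum_of_nonempty ⟨0, Finset.mem_univ _⟩ fun i _ => h3 i
  rw [← Finset.sum_mul, ← h1, Finset.sum_const, Finset.card_univ, Fintype.card_fin, nsmul_eq_mul] at h4
  have h5 : 0 < ‖v‖ ^ 2 := by positivity
  nlinarith [mul_nonneg (mul_nonneg h5.le (by linarith : (0 : ℝ) ≤ d)) (by linarith : (0 : ℝ) ≤ d - 1)]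

/-- the main estimate, for a curve on `[0, ε]` -/
lemma main_curve {γ : ℝ → E d} {v : E d} {ε : ℝ} (hε : 0 < ε) (hγ : ContinuousOn γ (Icc 0 ε))
    (hv : v ≠ 0) (hd : HasDerivWithinAt γ v (Ici 0) 0) (C η : ℝ) (hη : 0 < η) :
    ∃ r, 0 < r ∧ r < η ∧ r ≤ ε ∧ C * r < |F (γ r) - F (γ 0)| := by
  obtain ⟨i, hi⟩ := exists_coord v
  have hd1 := one_le_d (d := d)
  have hv0 : 0 < ‖v‖ := norm_pos_iff.2 hv
  have hvi : 0 < |v i| := by
    by_contra hcon
    have : |v i| = 0 := le_antisymm (not_lt.1 hcon) (abs_nonneg _)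
    rw [this, mul_zero] at hi
    linarith
  have hvi_le : |v i| ≤ ‖v‖ := by
    have := PiLp.norm_apply_le v i
    simpa using this
  -- differentiability at `0`
  have hlit := (hasDerivWithinAt_iff_isLittleO.1 hd).def (c := |v i| / 2) (by positivity)
  rw [eventually_nhdsWithin_iff, Metric.eventually_nhds_iff] at hlit
  obtain ⟨δ, hδ, hlit⟩ := hlit
  have hsmall : ∀ r, 0 ≤ r → r < δ → ‖γ r - γ 0 - r • v‖ ≤ |v i| / 2 * r := by
    intro r h0 h1
    have := hlit (y := r) (by rw [Real.dist_eq, sub_zero, abs_of_nonneg h0]; exact h1) h0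
    simpa [sub_zero, abs_of_nonneg h0] using this
  -- choice of the scale
  set m := min (min δ η) ε with hm
  have hm0 : 0 < m := by positivity
  have hB1 : 1 < B d := by unfold B; linarith
  have hBp := B_pos (d := d)
  obtain ⟨n, hn1⟩ : ∃ n : ℕ, 7 / |v i| / m < B d ^ n := pow_unbounded_of_one_lt _ hB1
  obtain ⟨n', hn2⟩ : ∃ n : ℕ, C * (28 / |v i|) < (256 : ℝ) ^ n := pow_unbounded_of_one_lt _ (by norm_num)
  set k : ℕ := i.val + d * (n + n') with hk
  have hkn : n ≤ k ∧ n' ≤ k := by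
    have h1 : 1 ≤ d := Nat.one_le_iff_ne_zero.2 (NeZero.ne d)
    have h2 : n + n' ≤ d * (n + n') := Nat.le_mul_of_pos_left _ h1
    omega
  have hki : Fin.ofNat d k = i := by
    apply Fin.ext
    simp only [Fin.ofNat, hk, Nat.add_mul_mod_self_left]
    exact Nat.mod_eq_of_lt i.isLt
  have hBk : 0 < B d ^ k := pow_pos hBp k
  set h : ℝ := 7 / |v i| / B d ^ k with hh
  have hh0 : 0 < h := by positivity
  have hhm : h < m := by
    rw [hh, div_lt_iff₀ hBk]
    have h1 : 7 / |v i| < B d ^ n * m := (div_lt_iff₀ hm0).1 hn1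
    have h2 : B d ^ n ≤ B d ^ k := pow_le_pow_right₀ hB1.le hkn.1
    nlinarith
  have hhδ : h < δ := hhm.trans_le ((min_le_left _ _).trans (min_le_left _ _))
  have hhη : h < η := hhm.trans_le ((min_le_left _ _).trans (min_le_right _ _))
  have hhε : h < ε := hhm.trans_le (min_le_right _ _)
  have hBh : B d ^ k * h = 7 / |v i| := by rw [hh]; field_simp
  -- the coordinate path
  set g : ℝ → ℝ := fun r => B d ^ k * (γ r i - γ 0 i) with hg
  have hgc : ContinuousOn g (Icc 0 h) := by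
    have h1 : ContinuousOn (fun r => γ r i) (Icc 0 h) :=
      (PiLp.continuous_apply 2 (fun _ : Fin d => ℝ) i).comp_continuousOn
        (hγ.mono (Icc_subset_Icc_right hhε.le))
    exact continuousOn_const.mul (h1.sub continuousOn_const)
  have hg0 : g 0 = 0 := by simp [hg]
  have hgh : 7 / 2 ≤ |g h| := by
    have h1 := hsmall h hh0.le hhδ
    have h2 := PiLp.norm_apply_le (γ h - γ 0 - h • v) i
    have h3 : |γ h i - γ 0 i - h * v i| ≤ |v i| / 2 * h := by
      refine le_trans ?_ h1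
      simpa using h2
    have h4 : |h * v i| - |v i| / 2 * h ≤ |γ h i - γ 0 i| := by
      have := abs_sub_abs_le_abs_sub (h * v i) (h * v i - (γ h i - γ 0 i))
      have e : h * v i - (h * v i - (γ h i - γ 0 i)) = γ h i - γ 0 i := by ring
      rw [e, abs_sub_comm (h * v i)] at this
      linarith
    rw [abs_mul, abs_of_pos hh0] at h4
    rw [hg]
    simp only
    rw [abs_mul, abs_of_pos hBk]
    have h5 : h * |v i| / 2 ≤ |γ h i - γ 0 i| := by linarith
    have h6 : B d ^ k * (h * |v i| / 2) = 7 / 2 := by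
      rw [show B d ^ k * (h * |v i| / 2) = B d ^ k * h * |v i| / 2 by ring, hBh]
      field_simp
    nlinarith
  obtain ⟨r, hr0, hrh, hr⟩ := exists_move (θ := B d ^ k * γ 0 i) hh0 hgc hg0 hgh
  refine ⟨r, hr0, hrh.trans_lt hhη, hrh.trans hhε.le, ?_⟩
  have hkey := key_lower k (γ 0) (γ r)
  have hterm : 1 / 2 * (1 / 16 : ℝ) ^ k ≤ |term k (γ r) - term k (γ 0)| := by
    unfold term
    rw [hki, ← mul_sub, abs_mul, abs_of_nonneg (by positivity : (0:ℝ) ≤ (1 / 16) ^ k)]
    have e : B d ^ k * γ 0 i + g r = B d ^ k * γ r i := by rw [hg]; ring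
    rw [e] at hr
    have : (0 : ℝ) < (1 / 16) ^ k := by positivity
    nlinarith
  have hdist : ‖γ r - γ 0‖ ≤ 2 * ‖v‖ * r := by
    have h1 := hsmall r hr0.le (hrh.trans_lt hhδ)
    have h2 : γ r - γ 0 = (γ r - γ 0 - r • v) + r • v := by abel
    rw [h2]
    refine (norm_add_le _ _).trans ?_
    rw [norm_smul, Real.norm_of_nonneg hr0.le]
    nlinarith
  have hfreq : (256 * (d : ℝ)) ^ k = (1 / 16 : ℝ) ^ k * B d ^ k := by
    rw [← mul_pow]
    congr 1
    unfold B
    ring
  have ha : (0 : ℝ) < (1 / 16) ^ k := by positivity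
  have h7 : (256 * (d : ℝ)) ^ k / 255 / d * ‖γ r - γ 0‖ ≤ 14 / 255 * (1 / 16 : ℝ) ^ k := by
    have e1 : B d ^ k * r ≤ 7 / |v i| := by rw [← hBh]; exact mul_le_mul_of_nonneg_left hrh hBk.le
    have e2 : B d ^ k * ‖γ r - γ 0‖ ≤ 14 * d := by
      calc B d ^ k * ‖γ r - γ 0‖ ≤ B d ^ k * (2 * ‖v‖ * r) := mul_le_mul_of_nonneg_left hdist hBk.le
        _ = 2 * ‖v‖ * (B d ^ k * r) := by ring
        _ ≤ 2 * (d * |v i|) * (7 / |v i|) := by
            refine mul_le_mul (by linarith) e1 (by positivity) (by positivity)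
        _ = 14 * d := by field_simp; norm_num
    rw [hfreq]
    have hd0 : (0 : ℝ) < d := by linarith
    calc (1 / 16 : ℝ) ^ k * B d ^ k / 255 / d * ‖γ r - γ 0‖
        = (1 / 16 : ℝ) ^ k / 255 / d * (B d ^ k * ‖γ r - γ 0‖) := by ring
      _ ≤ (1 / 16 : ℝ) ^ k / 255 / d * (14 * d) := mul_le_mul_of_nonneg_left e2 (by positivity)
      _ = 14 / 255 * (1 / 16 : ℝ) ^ k := by field_simp
  have h8 : 1 / 4 * (1 / 16 : ℝ) ^ k < |F (γ r) - F (γ 0)| := by nlinarith
  refine lt_of_le_of_lt ?_ h8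
  -- `C r ≤ a ^ k / 4`
  rcases le_or_gt C 0 with hC | hC
  · nlinarith
  have h9 : C * (28 / |v i|) < (256 * (d : ℝ)) ^ k := by
    refine hn2.trans_le ?_
    calc (256 : ℝ) ^ n' ≤ 256 ^ k := pow_le_pow_right₀ (by norm_num) hkn.2
      _ ≤ (256 * (d : ℝ)) ^ k := pow_le_pow_left₀ (by norm_num) (by linarith) k
  have h10 : C * r * B d ^ k ≤ C * (7 / |v i|) := by
    rw [mul_assoc, mul_comm r]
    refine mul_le_mul_of_nonneg_left ?_ hC.le
    rw [← hBh]
    exact mul_le_mul_of_nonneg_left hrh hBk.le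
  have h11 : C * (7 / |v i|) ≤ 1 / 4 * ((1 / 16 : ℝ) ^ k * B d ^ k) := by
    rw [← hfreq]
    have : C * (28 / |v i|) = 4 * (C * (7 / |v i|)) := by ring
    linarith
  have h12 : C * r * B d ^ k ≤ 1 / 4 * (1 / 16 : ℝ) ^ k * B d ^ k := by
    refine (h10.trans h11).trans (le_of_eq ?_)
    ring
  exact le_of_mul_le_mul_right h12 hBk

end construction

/-- For a nontrivial interval `I` and `t ∈ I`, some one-sided interval at `t` is contained in `I`. -/
lemma exists_side {I : Set ℝ} (hI : I.OrdConnected) (hI' : I.Nontrivial) {t : ℝ} (ht : t ∈ I) :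
    ∃ σ ε : ℝ, (σ = 1 ∨ σ = -1) ∧ 0 < ε ∧ ∀ r ∈ Icc 0 ε, t + σ * r ∈ I := by
  obtain ⟨s, hs, hst⟩ := hI'.exists_ne t
  rcases lt_or_gt_of_ne hst with h | h
  · refine ⟨-1, t - s, Or.inr rfl, by linarith, fun r hr => ?_⟩
    exact hI.out hs ht ⟨by linarith [hr.2], by linarith [hr.1]⟩
  · refine ⟨1, s - t, Or.inl rfl, by linarith, fun r hr => ?_⟩
    exact hI.out ht hs ⟨by linarith [hr.1], by linarith [hr.2]⟩

/-- **Main result.**  For every `d ≥ 1` there is a continuous function `f : ℝ^d → ℝ` such that: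

* for every interval `I` with nonempty interior and every `C¹` unit speed curve `c : I → ℝ^d`
  (one-sided derivatives at endpoints of `I`), `f ∘ c` is not differentiable at any point of `I`;
* more generally, for every interval `I` with nonempty interior, every continuous `c : I → ℝ^d` and
  every `t ∈ I` at which `c` has a nonzero derivative, the difference quotients of `f ∘ c` at `t`
  are unbounded (in particular `f ∘ c` is not differentiable at `t`). -/
theorem result : ∀ d : ℕ, 1 ≤ d → ∃ f : EuclideanSpace ℝ (Fin d) → ℝ, Continuous f ∧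
    (∀ (I : Set ℝ) (c : ℝ → EuclideanSpace ℝ (Fin d)), I.OrdConnected → (interior I).Nonempty →
      ContDiffOn ℝ 1 c I → (∀ t ∈ I, ‖derivWithin c I t‖ = 1) →
      ∀ t ∈ I, ¬ DifferentiableWithinAt ℝ (fun s => f (c s)) I t) ∧
    (∀ (I : Set ℝ) (c : ℝ → EuclideanSpace ℝ (Fin d)), I.OrdConnected → (interior I).Nonempty →
      ContinuousOn c I → ∀ t ∈ I, ∀ v : EuclideanSpace ℝ (Fin d), v ≠ 0 →
      HasDerivWithinAt c v I t →
      (∀ C η : ℝ, 0 < η → ∃ s ∈ I, 0 < |s - t| ∧ |s - t| < η ∧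
        C * |s - t| < |f (c s) - f (c t)|) ∧
      ¬ DifferentiableWithinAt ℝ (fun s => f (c s)) I t) := by
  intro d hd
  have hd0 : NeZero d := ⟨by omega⟩
  have main : ∀ (I : Set ℝ) (c : ℝ → EuclideanSpace ℝ (Fin d)), I.OrdConnected →
      (interior I).Nonempty → ContinuousOn c I → ∀ t ∈ I, ∀ v : EuclideanSpace ℝ (Fin d), v ≠ 0 →
      HasDerivWithinAt c v I t →
      (∀ C η : ℝ, 0 < η → ∃ s ∈ I, 0 < |s - t| ∧ |s - t| < η ∧
        C * |s - t| < |F (c s) - F (c t)|) ∧
      ¬ DifferentiableWithinAt ℝ (fun s => F (c s)) I t := by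
    intro I c hI hI' hc t ht v hv hder
    have hnt : I.Nontrivial := by
      obtain ⟨x, hx⟩ := hI'
      obtain ⟨ε, hε, hb⟩ := Metric.isOpen_iff.1 isOpen_interior x hx
      refine ⟨x, interior_subset hx, x + ε / 2, interior_subset (hb ?_), by linarith⟩
      rw [Metric.mem_ball, Real.dist_eq]
      rw [show x + ε / 2 - x = ε / 2 by ring, abs_of_pos (by linarith)]
      linarith
    obtain ⟨σ, ε, hσ, hε, hmem⟩ := exists_side hI hnt ht
    have hσ2 : |σ| = 1 := by rcases hσ with rfl | rfl <;> simp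
    have hσ0 : σ ≠ 0 := by rcases hσ with rfl | rfl <;> norm_num
    have hfirst : ∀ C η : ℝ, 0 < η → ∃ s ∈ I, 0 < |s - t| ∧ |s - t| < η ∧
        C * |s - t| < |F (c s) - F (c t)| := by
      intro C η hη
      have haff : HasDerivWithinAt (fun r : ℝ => t + σ * r) σ (Icc 0 ε) 0 := by
        have := ((hasDerivAt_id (0 : ℝ)).const_mul σ).const_add t
        simpa using this.hasDerivWithinAt
      have hcomp : HasDerivWithinAt (fun r : ℝ => c (t + σ * r)) (σ • v) (Icc 0 ε) 0 := by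
        have h0 : t + σ * 0 = t := by ring
        have hder' : HasDerivWithinAt c v I (t + σ * 0) := by rwa [h0]
        exact hder'.scomp 0 haff fun r hr => hmem r hr
      have hcomp' : HasDerivWithinAt (fun r : ℝ => c (t + σ * r)) (σ • v) (Ici 0) 0 := by
        refine hcomp.mono_of_mem_nhdsWithin ?_
        rw [mem_nhdsWithin_iff_exists_mem_nhds_inter]
        refine ⟨Iio ε, Iio_mem_nhds hε, ?_⟩
        rintro x ⟨h1, h2⟩
        exact ⟨h2, (mem_Iio.1 h1).le⟩
      have hcont : ContinuousOn (fun r : ℝ => c (t + σ * r)) (Icc 0 ε) :=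
        hc.comp (by fun_prop) fun r hr => hmem r hr
      obtain ⟨r, h1, h2, h3, h4⟩ := main_curve hε hcont (smul_ne_zero hσ0 hv) hcomp' C η hη
      have e : |t + σ * r - t| = r := by
        rw [show t + σ * r - t = σ * r by ring, abs_mul, hσ2, one_mul, abs_of_pos h1]
      refine ⟨t + σ * r, hmem r ⟨h1.le, h3⟩, ?_, ?_, ?_⟩
      · rw [e]; exact h1
      · rw [e]; exact h2
      · rw [e]
        simpa using h4
    refine ⟨hfirst, fun hdiff => ?_⟩
    have hlo := (hasDerivWithinAt_iff_isLittleO.1 hdiff.hasDerivWithinAt).def (c := 1) one_pos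
    rw [eventually_nhdsWithin_iff, Metric.eventually_nhds_iff] at hlo
    obtain ⟨η, hη, hw⟩ := hlo
    set D := derivWithin (fun s => F (c s)) I t with hD
    obtain ⟨s, hs, h1, h2, h3⟩ := hfirst (|D| + 1) η hη
    have h4 := hw (y := s) (by rw [Real.dist_eq]; exact h2) hs
    rw [Real.norm_eq_abs, Real.norm_eq_abs, smul_eq_mul, one_mul] at h4
    have h5 : |F (c s) - F (c t)| ≤ |F (c s) - F (c t) - (s - t) * D| + |(s - t) * D| := by
      have := abs_add_le (F (c s) - F (c t) - (s - t) * D) ((s - t) * D)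
      rwa [sub_add_cancel] at this
    rw [abs_mul] at h5
    nlinarith
  refine ⟨F, continuous_F, ?_, main⟩
  intro I c hI hI' hc hunit t ht
  have hder : HasDerivWithinAt c (derivWithin c I t) I t :=
    ((hc.differentiableOn one_ne_zero) t ht).hasDerivWithinAt
  refine (main I c hI hI' hc.continuousOn t ht _ ?_ hder).2
  intro h0
  have := hunit t ht
  rw [h0, norm_zero] at this
  exact zero_ne_one this

end Pool.Agent.Results.MP_047b76_an.NowhereDiff
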